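import Pool.Agent.Q227.AR.A2

/-!
# Orbits and masses
-/

set_option autoImplicit false

namespace Pool.Agent.Q227.AR

open Finset

open scoped ENNReal

variable {X ι : Type} {s : ι → Equiv.Perm X} {p : ι → ℕ}

/-- two functions with the same sums over orbits in the directions `J` and total mass less than
`2 ^ |J|` are equal -/
theorem Fam.unique2 (h : Fam s p) {J : Finset ι} {f g : X → ℕ}
    (hm : mass f + mass g < 2 ^ J.card)
    (hfg : ∀ i ∈ J, nm (s i) (p i) f = nm (s i) (p i) g) : f = g := by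
  classical
  by_contra hne
  set s' : Option ι → Equiv.Perm X := fun o => o.elim 1 s with hs'
  set p' : Option ι → ℕ := fun o => o.elim 1 p with hp'
  have h' : Fam s' p' := by
    refine ⟨?_, ?_, ?_, ?_⟩
    · rintro (_ | i) (_ | j)
      · exact Commute.refl _
      · exact Commute.one_left _
      · exact Commute.one_right _
      · exact h.comm i j
    · rintro (_ | i)
      · exact one_pow _
      · exact h.pow i
    · rintro (_ | i)
      · exact Nat.one_pos
      · exact h.pos i
    · rintro (_ | i) (_ | j) hij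
      · exact absurd rfl hij
      · exact Nat.coprime_one_left _
      · exact Nat.coprime_one_right _
      · exact h.cop i j fun e => hij (e ▸ rfl)
  have key : ∀ u : X → ℤ, nm (s' none) (p' none) u = u := by
    intro u
    funext x
    unfold nm
    exact Finset.sum_range_one _
  set e : X → ℤ := (fun x => (f x : ℤ)) - fun x => (g x : ℤ) with he
  have h1 := h'.lower none (J.map ⟨some, Option.some_injective _⟩) (by simp) e (by
      intro i hi
      rw [Finset.mem_map] at hi
      obtain ⟨j, hj, rfl⟩ := hi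
      rw [key]
      change nm (s j) (p j) e = 0
      rw [he, nm_sub, nm_cast, nm_cast, hfg j hj, sub_self]) (by
      rw [key]
      intro h0
      apply hne
      funext x
      have h3 := congrFun h0 x
      rw [he, Pi.sub_apply, Pi.zero_apply, sub_eq_zero] at h3
      exact_mod_cast h3)
  rw [Finset.card_map] at h1
  have h3 : tv e ≤ mass f + mass g := by
    unfold tv mass
    rw [← ENNReal.tsum_add]
    refine ENNReal.tsum_le_tsum fun x => ?_
    have : (e x).natAbs ≤ f x + g x := by
      rw [he, Pi.sub_apply]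
      omega
    exact_mod_cast this
  exact absurd (h1.trans h3) (not_le.2 hm)

/-- solutions on the orbits give a solution -/
theorem Fam.glue (h : Fam s p) (J : Finset ι) (f : ι → X → ℕ)
    (hS : ∀ x, ∃ g : X → ℕ, ∀ i ∈ J, nm (s i) (p i) g
      = (ob s J x).indicator (nm (s i) (p i) (f i))) :
    ∃ g : X → ℕ, ∀ i ∈ J, nm (s i) (p i) g = nm (s i) (p i) (f i) := by
  classical
  have h1 : ∀ S : Set X, ∃ g : X → ℕ, (∃ x, S = ob s J x) →
      ∀ i ∈ J, nm (s i) (p i) g = S.indicator (nm (s i) (p i) (f i)) := by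
    intro S
    by_cases hS' : ∃ x, S = ob s J x
    · obtain ⟨x, rfl⟩ := hS'
      obtain ⟨g, hg⟩ := hS x
      exact ⟨g, fun _ => hg⟩
    · exact ⟨0, fun h' => absurd h' hS'⟩
  choose G hG using h1
  refine ⟨fun x => G (ob s J x) x, ?_⟩
  intro i hi
  funext x
  have h3 : nm (s i) (p i) (fun x => G (ob s J x) x) x = nm (s i) (p i) (G (ob s J x)) x := by
    refine Finset.sum_congr rfl fun k _ => ?_
    change G (ob s J ((s i ^ k) x)) ((s i ^ k) x) = _
    rw [ob_eq ((gp s J).pow_mem (mem_gp hi) k)]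
  rw [h3, hG _ ⟨x, rfl⟩ i hi, Set.indicator_of_mem (mem_ob J x)]

/-- the masses of the restrictions to an orbit agree -/
theorem Fam.mass_eq (h : Fam s p) {J : Finset ι} {f : ι → X → ℕ}
    (hc : ∀ i ∈ J, ∀ j ∈ J, nm (s j) (p j) (nm (s i) (p i) (f i))
      = nm (s i) (p i) (nm (s j) (p j) (f j))) (x₀ : X) {i j : ι} (hi : i ∈ J) (hj : j ∈ J) :
    mass ((ob s J x₀).indicator (f i)) = mass ((ob s J x₀).indicator (f j)) := by
  have hpp : ∀ i, (p i : ℝ≥0∞) ≠ 0 := fun i => by
    have := (h.pos i).ne'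
    exact_mod_cast this
  have hst : ∀ i ∈ J, ∀ z, s i z ∈ ob s J x₀ ↔ z ∈ ob s J x₀ := fun i hi z =>
    h.ob_stable hi x₀ z
  have h2 : (p j : ℝ≥0∞) * (p i * mass ((ob s J x₀).indicator (f i)))
      = p j * (p i * mass ((ob s J x₀).indicator (f j))) := by
    have e1 : (p j : ℝ≥0∞) * (p i * mass ((ob s J x₀).indicator (f i)))
        = mass (nm (s j) (p j) (nm (s i) (p i) ((ob s J x₀).indicator (f i)))) := by
      rw [mass_nm, mass_nm]
    have e2 : (p i : ℝ≥0∞) * (p j * mass ((ob s J x₀).indicator (f j)))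
        = mass (nm (s i) (p i) (nm (s j) (p j) ((ob s J x₀).indicator (f j)))) := by
      rw [mass_nm, mass_nm]
    rw [mul_left_comm (p j : ℝ≥0∞) (p i : ℝ≥0∞) (mass ((ob s J x₀).indicator (f j))),
      e1, e2, nm_indicator (hst i hi), nm_indicator (hst j hj),
      nm_indicator (hst j hj), nm_indicator (hst i hi), hc i hi j hj]
  exact (ENNReal.mul_right_inj (hpp i) (ENNReal.natCast_ne_top _)).1
    ((ENNReal.mul_right_inj (hpp j) (ENNReal.natCast_ne_top _)).1 h2)

/-- orbits of small mass -/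
theorem Fam.small (h : Fam s p) {n : ℕ} {J : Finset ι} (hJ : n + 2 ≤ J.card) {f : ι → X → ℕ}
    (hc : ∀ i ∈ J, ∀ j ∈ J, nm (s j) (p j) (nm (s i) (p i) (f i))
      = nm (s i) (p i) (nm (s j) (p j) (f j))) (x₀ : X)
    (hm : ∀ i ∈ J, mass ((ob s J x₀).indicator (f i)) ≤ n) :
    ∃ g : X → ℕ, ∀ i ∈ J, nm (s i) (p i) g = (ob s J x₀).indicator (nm (s i) (p i) (f i)) := by
  have hst : ∀ i ∈ J, ∀ z, s i z ∈ ob s J x₀ ↔ z ∈ ob s J x₀ := fun i hi z =>
    h.ob_stable hi x₀ z
  obtain ⟨g, hg⟩ := h.exists_common n J hJ (fun i => (ob s J x₀).indicator (f i)) hm (by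
    intro i hi j hj
    rw [nm_indicator (hst i hi), nm_indicator (hst j hj), nm_indicator (hst j hj),
      nm_indicator (hst i hi), hc i hi j hj])
  exact ⟨g, fun i hi => by rw [hg i hi, nm_indicator (hst i hi)]⟩

end Pool.Agent.Q227.AR
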