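import Mathlib

/-!
# Functions on a set with commuting permutations of coprime orders, and their sums over orbits
-/

set_option autoImplicit false

namespace Pool.Agent.Q227.AR

open Finset

open scoped ENNReal

/-- elements of the closure of a commuting set commute -/
theorem comm_closure {G : Type} [Group G] {S : Set G} (h : ∀ a ∈ S, ∀ b ∈ S, Commute a b) {a b : G}
    (ha : a ∈ Subgroup.closure S) (hb : b ∈ Subgroup.closure S) : Commute a b := by
  have h1 : Subgroup.closure S ≤ Subgroup.centralizer S := by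
    rw [Subgroup.closure_le]
    intro c hc
    rw [SetLike.mem_coe, Subgroup.mem_centralizer_iff]
    intro d hd
    exact h d hd c hc
  have h2 : Subgroup.closure S ≤ Subgroup.centralizer {a} := by
    rw [Subgroup.closure_le]
    intro c hc
    rw [SetLike.mem_coe, Subgroup.mem_centralizer_iff]
    rintro d rfl
    exact ((Subgroup.mem_centralizer_iff.1 (h1 ha)) c hc).symm
  exact (Subgroup.mem_centralizer_iff.1 (h2 hb)) a rfl

/-- elements of the closure of a commuting set of elements killed by `m` are killed by `m` -/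
theorem pow_closure {G : Type} [Group G] {S : Set G} (h : ∀ a ∈ S, ∀ b ∈ S, Commute a b) {m : ℕ}
    (hm : ∀ a ∈ S, a ^ m = 1) {a : G} (ha : a ∈ Subgroup.closure S) : a ^ m = 1 := by
  induction ha using Subgroup.closure_induction with
  | mem x hx => exact hm x hx
  | one => exact one_pow _
  | mul x y hx hy h1 h2 => rw [(comm_closure h hx hy).mul_pow, h1, h2, one_mul]
  | inv x hx h1 => rw [inv_pow, h1, inv_one]

variable {X : Type}

/-- sums over the orbits of a permutation of order dividing `p` -/
def nm {M : Type} [AddCommMonoid M] (a : Equiv.Perm X) (p : ℕ) (f : X → M) (x : X) : M :=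
  ∑ k ∈ range p, f ((a ^ k) x)

section nm

variable {M : Type} [AddCommMonoid M]

theorem nm_add (a : Equiv.Perm X) (p : ℕ) (f g : X → M) : nm a p (f + g) = nm a p f + nm a p g := by
  funext x
  exact Finset.sum_add_distrib

theorem nm_zero (a : Equiv.Perm X) (p : ℕ) : nm a p (0 : X → M) = 0 := by
  funext x
  exact Finset.sum_const_zero

theorem nm_apply_self {a : Equiv.Perm X} {p : ℕ} (ha : a ^ p = 1) (f : X → M) (x : X) :
    nm a p f (a x) = nm a p f x := by
  unfold nm
  rcases Nat.eq_zero_or_pos p with rfl | hp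
  · rfl
  obtain ⟨q, rfl⟩ : ∃ q, p = q + 1 := ⟨p - 1, by omega⟩
  rw [Finset.sum_range_succ, Finset.sum_range_succ']
  have h1 : ∀ k, (a ^ k) (a x) = (a ^ (k + 1)) x := fun k => by
    rw [pow_succ, Equiv.Perm.mul_apply]
  refine congrArg₂ (· + ·) (Finset.sum_congr rfl fun k _ => ?_) ?_
  · rw [h1]
  · rw [h1, ha, pow_zero]

theorem nm_apply_pow {a : Equiv.Perm X} {p : ℕ} (ha : a ^ p = 1) (f : X → M) (j : ℕ) (x : X) :
    nm a p f ((a ^ j) x) = nm a p f x := by
  induction j with
  | zero => rfl
  | succ j ih => rw [pow_succ', Equiv.Perm.mul_apply, nm_apply_self ha, ih]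

theorem nm_apply_inv {a : Equiv.Perm X} {p : ℕ} (ha : a ^ p = 1) (f : X → M) (j : ℕ) (x : X) :
    nm a p f (((a ^ j)⁻¹ : Equiv.Perm X) x) = nm a p f x := by
  rw [← nm_apply_pow ha f j]
  congr 1
  rw [← Equiv.Perm.mul_apply, mul_inv_cancel, Equiv.Perm.one_apply]

/-- sums over orbits and commuting permutations -/
theorem nm_comp {a : Equiv.Perm X} {p : ℕ} {c : Equiv.Perm X} (hc : Commute a c) (f : X → M) :
    nm a p (fun x => f (c x)) = fun x => nm a p f (c x) := by
  funext x
  unfold nm
  refine Finset.sum_congr rfl fun k _ => ?_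
  have h1 : c * a ^ k = a ^ k * c := (hc.pow_left k).eq.symm
  change f ((c * a ^ k) x) = f ((a ^ k * c) x)
  rw [h1]

/-- commutativity -/
theorem nm_comm {a b : Equiv.Perm X} {p q : ℕ} (h : Commute a b) (f : X → M) :
    nm a p (nm b q f) = nm b q (nm a p f) := by
  funext x
  unfold nm
  rw [Finset.sum_comm]
  refine Finset.sum_congr rfl fun k _ => Finset.sum_congr rfl fun l _ => ?_
  have h1 : b ^ k * a ^ l = a ^ l * b ^ k := ((h.symm.pow_left k).pow_right l).eq
  change f ((b ^ k * a ^ l) x) = f ((a ^ l * b ^ k) x)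
  rw [h1]

/-- restriction to a stable set -/
theorem nm_indicator {a : Equiv.Perm X} {p : ℕ} {S : Set X} (hS : ∀ x, a x ∈ S ↔ x ∈ S)
    (f : X → M) : nm a p (S.indicator f) = S.indicator (nm a p f) := by
  classical
  have h1 : ∀ k x, (a ^ k) x ∈ S ↔ x ∈ S := by
    intro k x
    induction k with
    | zero => rfl
    | succ k ih => rw [pow_succ', Equiv.Perm.mul_apply, hS, ih]
  funext x
  by_cases hx : x ∈ S
  · rw [Set.indicator_of_mem hx]
    exact Finset.sum_congr rfl fun k _ => Set.indicator_of_mem ((h1 k x).2 hx) f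
  · rw [Set.indicator_of_notMem hx]
    exact Finset.sum_eq_zero fun k _ => Set.indicator_of_notMem (fun h => hx ((h1 k x).1 h)) f

end nm

theorem nm_sub (a : Equiv.Perm X) (p : ℕ) (f g : X → ℤ) :
    nm a p (f - g) = nm a p f - nm a p g := by
  funext x
  exact Finset.sum_sub_distrib _ _

theorem nm_cast (a : Equiv.Perm X) (p : ℕ) (f : X → ℕ) :
    nm a p (fun x => (f x : ℤ)) = fun x => ((nm a p f x : ℕ) : ℤ) := by
  funext x
  unfold nm
  push_cast
  rfl

theorem le_nm (a : Equiv.Perm X) {p : ℕ} (hp : 0 < p) (f : X → ℕ) (x : X) : f x ≤ nm a p f x := by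
  have h1 : f ((a ^ 0) x) ≤ nm a p f x :=
    Finset.single_le_sum (f := fun k => f ((a ^ k) x)) (fun _ _ => Nat.zero_le _)
      (mem_range.2 hp)
  exact h1

end Pool.Agent.Q227.AR
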