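import Pool.Agent.Q227.AR.T1

/-!
# The smallest functions whose sums over orbits vanish
-/

set_option autoImplicit false

namespace Pool.Agent.Q227.AR

open Finset

open scoped ENNReal

variable {X ι : Type}

/-- commuting permutations of pairwise coprime orders -/
structure Fam (s : ι → Equiv.Perm X) (p : ι → ℕ) : Prop where
  comm : ∀ i j, Commute (s i) (s j)
  pow : ∀ i, s i ^ p i = 1
  pos : ∀ i, 0 < p i
  cop : ∀ i j, i ≠ j → (p i).Coprime (p j)

variable {s : ι → Equiv.Perm X} {p : ι → ℕ}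

/-- the group generated by some of the permutations -/
def gp (s : ι → Equiv.Perm X) (J : Finset ι) : Subgroup (Equiv.Perm X) :=
  Subgroup.closure (s '' (J : Set ι))

theorem mem_gp {J : Finset ι} {i : ι} (hi : i ∈ J) : s i ∈ gp s J :=
  Subgroup.subset_closure (Set.mem_image_of_mem _ hi)

namespace Fam

variable (h : Fam s p)
include h

theorem comm_gp {J : Finset ι} {a : Equiv.Perm X} (ha : a ∈ gp s J) (t : ι) :
    Commute a (s t) := by
  have h1 : ∀ a ∈ s '' (J : Set ι) ∪ {s t}, ∀ b ∈ s '' (J : Set ι) ∪ {s t}, Commute a b := by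
    rintro _ (⟨i, -, rfl⟩ | rfl) _ (⟨j, -, rfl⟩ | rfl) <;> exact h.comm _ _
  exact comm_closure h1 (Subgroup.closure_mono Set.subset_union_left ha)
    (Subgroup.subset_closure (Or.inr rfl))

theorem pow_gp {J : Finset ι} {a : Equiv.Perm X} (ha : a ∈ gp s J) : a ^ (∏ i ∈ J, p i) = 1 := by
  refine pow_closure ?_ ?_ ha
  · rintro _ ⟨i, -, rfl⟩ _ ⟨j, -, rfl⟩
    exact h.comm _ _
  · rintro _ ⟨i, hi, rfl⟩
    obtain ⟨c, hc⟩ := Finset.dvd_prod_of_mem p hi
    rw [hc, pow_mul, h.pow, one_pow]

/-- two coprime directions meet in one point -/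
theorem fix {J : Finset ι} {t : ι} (ht : t ∉ J) {a : Equiv.Perm X} (ha : a ∈ gp s J) {k : ℕ}
    {x : X} (hx : (s t ^ k) x = a x) : (s t ^ k) x = x := by
  have hc : Commute a (s t ^ k) := (h.comm_gp ha t).pow_right k
  have h1 : ∀ j : ℕ, ((s t ^ k) ^ j) x = (a ^ j) x := by
    intro j
    induction j with
    | zero => rfl
    | succ j ih =>
      have h2 : ((s t ^ k) ^ (j + 1)) x = ((s t ^ k) ^ j) ((s t ^ k) x) := by
        rw [pow_succ, Equiv.Perm.mul_apply]
      have h3 : (s t ^ k) ^ j * a = a * (s t ^ k) ^ j := (hc.pow_right j).eq.symm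
      rw [h2, hx, ← Equiv.Perm.mul_apply, h3, Equiv.Perm.mul_apply, ih, pow_succ',
        Equiv.Perm.mul_apply]
  have h2 : Function.IsPeriodicPt (s t ^ k) (∏ i ∈ J, p i) x := by
    have h3 := h1 (∏ i ∈ J, p i)
    rw [h.pow_gp ha, Equiv.Perm.one_apply] at h3
    rw [Function.IsPeriodicPt, Function.IsFixedPt, ← Equiv.Perm.coe_pow]
    exact h3
  have h3 : Function.IsPeriodicPt (s t ^ k) (p t) x := by
    rw [Function.IsPeriodicPt, Function.IsFixedPt, ← Equiv.Perm.coe_pow, ← pow_mul, mul_comm,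
      pow_mul, h.pow, one_pow, Equiv.Perm.one_apply]
  have h4 := h2.gcd h3
  have h5 : Nat.gcd (∏ i ∈ J, p i) (p t) = 1 :=
    Nat.Coprime.prod_left fun i hi => h.cop i t fun e => ht (e ▸ hi)
  rw [h5] at h4
  exact h4

/-- the orbit of a point under some of the permutations -/
theorem orb_stable {J : Finset ι} {i : ι} (hi : i ∈ J) (x z : X) :
    s i z ∈ {z | ∃ a ∈ gp s J, z = a x} ↔ z ∈ {z | ∃ a ∈ gp s J, z = a x} := by
  rw [Set.mem_setOf_eq, Set.mem_setOf_eq]
  constructor
  · rintro ⟨a, ha, hz⟩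
    refine ⟨(s i)⁻¹ * a, (gp s J).mul_mem ((gp s J).inv_mem (mem_gp hi)) ha, ?_⟩
    rw [Equiv.Perm.mul_apply, ← hz, ← Equiv.Perm.mul_apply, inv_mul_cancel, Equiv.Perm.one_apply]
  · rintro ⟨a, ha, rfl⟩
    exact ⟨s i * a, (gp s J).mul_mem (mem_gp hi) ha, rfl⟩

end Fam

/-- the total variation of an integer valued function -/
noncomputable def tv (e : X → ℤ) : ℝ≥0∞ := ∑' x, ((e x).natAbs : ℝ≥0∞)

theorem one_le_tv {e : X → ℤ} (he : e ≠ 0) : 1 ≤ tv e := by
  obtain ⟨x, hx⟩ := Function.ne_iff.1 he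
  have h1 : ((e x).natAbs : ℝ≥0∞) ≤ tv e := ENNReal.le_tsum x
  have h2 : (1 : ℝ≥0∞) ≤ ((e x).natAbs : ℝ≥0∞) := by
    have : 1 ≤ (e x).natAbs := Int.natAbs_pos.2 hx
    exact_mod_cast this
  exact h2.trans h1

theorem tv_two {e : X → ℤ} {S S' : Set X} (hS : Disjoint S S') :
    tv (S.indicator e) + tv (S'.indicator e) ≤ tv e := by
  classical
  unfold tv
  rw [← ENNReal.tsum_add]
  refine ENNReal.tsum_le_tsum fun x => ?_
  by_cases hx : x ∈ S
  · have hx' : x ∉ S' := fun h => Set.disjoint_left.1 hS hx h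
    rw [Set.indicator_of_mem hx, Set.indicator_of_notMem hx']
    simp
  · rw [Set.indicator_of_notMem hx]
    by_cases hx' : x ∈ S'
    · rw [Set.indicator_of_mem hx']
      simp
    · rw [Set.indicator_of_notMem hx']
      simp

/-- a function whose sums over the orbits in `t` and `i` vanish for the members `i` of `J`, but not
its sums over the orbits in `t`, has total variation at least `2 ^ |J|` -/
theorem Fam.lower (h : Fam s p) (t : ι) (J : Finset ι) : t ∉ J → ∀ e : X → ℤ,
    (∀ i ∈ J, nm (s i) (p i) (nm (s t) (p t) e) = 0) → nm (s t) (p t) e ≠ 0 →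
    (2 : ℝ≥0∞) ^ J.card ≤ tv e := by
  classical
  induction J using Finset.induction_on with
  | empty =>
    intro _ e _ he
    rw [Finset.card_empty, pow_zero]
    apply one_le_tv
    rintro rfl
    exact he (nm_zero _ _)
  | insert i J hi ih =>
    intro ht e he hne
    obtain ⟨x, hx⟩ := Function.ne_iff.1 hne
    set u := nm (s t) (p t) e with hu
    have hti : i ≠ t := fun e => ht (e ▸ Finset.mem_insert_self _ _)
    have htJ : t ∉ J := fun e => ht (Finset.mem_insert_of_mem e)
    -- another point of the orbit of `x` under `s i`, with another nonzero value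
    obtain ⟨k, hk, hk0, hkx⟩ : ∃ k < p i, u ((s i ^ k) x) ≠ 0 ∧ u ((s i ^ k) x) ≠ u x := by
      by_contra hcon
      push Not at hcon
      have h1 : nm (s i) (p i) u x = 0 := by rw [he i (Finset.mem_insert_self _ _)]; rfl
      have h2 : nm (s i) (p i) u x
          = ∑ k ∈ range (p i), if u ((s i ^ k) x) = 0 then 0 else u x := by
        refine Finset.sum_congr rfl fun k hk => ?_
        split_ifs with h3
        · exact h3
        · exact hcon k (mem_range.1 hk) h3
      rw [h2, Finset.sum_ite, Finset.sum_const_zero, zero_add, Finset.sum_const, nsmul_eq_mul,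
        mul_eq_zero] at h1
      rcases h1 with h1 | h1
      · rw [Nat.cast_eq_zero, Finset.card_eq_zero] at h1
        have h3 : 0 ∈ (range (p i)).filter fun k => ¬ u ((s i ^ k) x) = 0 := by
          rw [Finset.mem_filter, mem_range]
          exact ⟨h.pos i, hx⟩
        rw [h1] at h3
        exact absurd h3 (Finset.notMem_empty _)
      · exact hx h1
    set H : Finset ι := insert t J with hH
    have hiH : i ∉ H := by
      rw [hH, Finset.mem_insert]
      rintro (h1 | h1)
      · exact hti h1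
      · exact hi h1
    have hpart : ∀ y, u y ≠ 0 →
        (2 : ℝ≥0∞) ^ J.card ≤ tv ({z | ∃ a ∈ gp s H, z = a y}.indicator e) := by
      intro y hy
      have ht1 : nm (s t) (p t) ({z | ∃ a ∈ gp s H, z = a y}.indicator e)
          = {z | ∃ a ∈ gp s H, z = a y}.indicator u :=
        nm_indicator (fun z => h.orb_stable (Finset.mem_insert_self _ _) y z) e
      apply ih htJ
      · intro j hj
        rw [ht1, nm_indicator (fun z => h.orb_stable (Finset.mem_insert_of_mem hj) y z),
          he j (Finset.mem_insert_of_mem hj)]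
        exact Set.indicator_zero' _
      · rw [ht1]
        intro h0
        have h1 := congrFun h0 y
        have h2 : y ∈ {z | ∃ a ∈ gp s H, z = a y} := ⟨1, (gp s H).one_mem, rfl⟩
        rw [Set.indicator_of_mem h2] at h1
        exact hy h1
    have hdis : Disjoint {z | ∃ a ∈ gp s H, z = a x} {z | ∃ a ∈ gp s H, z = a ((s i ^ k) x)} := by
      rw [Set.disjoint_left]
      rintro z ⟨a, ha, haz⟩ ⟨b, hb, hbz⟩
      apply hkx
      have h1 : (s i ^ k) x = (b⁻¹ * a) x := by
        rw [Equiv.Perm.mul_apply, ← haz, hbz, ← Equiv.Perm.mul_apply, inv_mul_cancel,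
          Equiv.Perm.one_apply]
      rw [h.fix hiH ((gp s H).mul_mem ((gp s H).inv_mem hb) ha) h1]
    calc (2 : ℝ≥0∞) ^ (insert i J).card = 2 ^ J.card + 2 ^ J.card := by
          rw [Finset.card_insert_of_notMem hi, pow_succ, mul_two]
      _ ≤ _ := add_le_add (hpart x hx) (hpart _ hk0)
      _ ≤ tv e := tv_two hdis

end Pool.Agent.Q227.AR
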