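import Pool.Agent.Q227.AR.T2

/-!
# Common solutions of the equations given by sums over orbits
-/

set_option autoImplicit false

namespace Pool.Agent.Q227.AR

open Finset

open scoped ENNReal

variable {X ι : Type}

/-- the sum of the values -/
noncomputable def mass (f : X → ℕ) : ℝ≥0∞ := ∑' x, (f x : ℝ≥0∞)

theorem mass_add (f g : X → ℕ) : mass (f + g) = mass f + mass g := by
  unfold mass
  rw [← ENNReal.tsum_add]
  exact tsum_congr fun x => by rw [Pi.add_apply, Nat.cast_add]

theorem mass_mono {f g : X → ℕ} (h : ∀ x, f x ≤ g x) : mass f ≤ mass g :=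
  ENNReal.tsum_le_tsum fun x => by exact_mod_cast h x

/-- the function with value one at a point -/
noncomputable def dl (x : X) : X → ℕ := by
  classical
  exact fun w => if w = x then 1 else 0

theorem dl_self (x : X) : dl x x = 1 := by
  classical
  exact if_pos rfl

theorem mass_dl (x : X) : mass (dl x) = 1 := by
  classical
  unfold mass
  rw [tsum_eq_single x]
  · rw [dl_self, Nat.cast_one]
  · intro w hw
    have : dl x w = 0 := if_neg hw
    rw [this, Nat.cast_zero]

theorem dl_perm (a : Equiv.Perm X) (x : X) : dl (a x) = fun w => dl x (a⁻¹ w) := by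
  classical
  funext w
  unfold dl
  by_cases h : w = a x
  · rw [if_pos h, if_pos]
    rw [h, ← Equiv.Perm.mul_apply, inv_mul_cancel, Equiv.Perm.one_apply]
  · rw [if_neg h, if_neg]
    intro h1
    apply h
    rw [← h1, ← Equiv.Perm.mul_apply, mul_inv_cancel, Equiv.Perm.one_apply]

theorem nm_dl {a : Equiv.Perm X} {p : ℕ} (ha : a ^ p = 1) (j : ℕ) (x : X) :
    nm a p (dl ((a ^ j) x)) = nm a p (dl x) := by
  rw [dl_perm, nm_comp ((Commute.refl a).pow_right j).inv_right]
  funext w
  exact nm_apply_inv ha _ j w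

theorem mass_nm (a : Equiv.Perm X) (p : ℕ) (f : X → ℕ) : mass (nm a p f) = p * mass f := by
  induction p with
  | zero =>
    unfold mass nm
    simp
  | succ p ih =>
    have h1 : nm a (p + 1) f = nm a p f + fun x => f ((a ^ p) x) := by
      funext x
      exact Finset.sum_range_succ _ _
    have h2 : mass (fun x => f ((a ^ p) x)) = mass f := by
      unfold mass
      exact Equiv.tsum_eq (a ^ p) fun x => (f x : ℝ≥0∞)
    rw [h1, mass_add, ih, h2, Nat.cast_add, Nat.cast_one, add_mul, one_mul]

theorem mass_pos {f : X → ℕ} {x : X} (hx : f x ≠ 0) : 1 ≤ mass f := by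
  have h1 : (f x : ℝ≥0∞) ≤ mass f := ENNReal.le_tsum x
  have h2 : (1 : ℝ≥0∞) ≤ (f x : ℝ≥0∞) := by
    have : 1 ≤ f x := Nat.pos_of_ne_zero hx
    exact_mod_cast this
  exact h2.trans h1

theorem sub_dl {f : X → ℕ} {x : X} (hx : f x ≠ 0) : ∃ g : X → ℕ, f = g + dl x := by
  classical
  refine ⟨fun w => f w - dl x w, ?_⟩
  funext w
  rw [Pi.add_apply]
  unfold dl
  by_cases h : w = x
  · rw [if_pos h, h]
    have : 1 ≤ f x := Nat.pos_of_ne_zero hx
    omega
  · rw [if_neg h]
    omega

/-- two directions: a common solution always exists -/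
theorem pair {a b : Equiv.Perm X} {p q : ℕ} (hab : Commute a b) (ha : a ^ p = 1) (hb : b ^ q = 1)
    (hp : 0 < p) (hq : 0 < q) (n : ℕ) : ∀ f g : X → ℕ, mass f ≤ n →
    nm b q (nm a p f) = nm a p (nm b q g) →
    ∃ k : X → ℕ, nm a p k = nm a p f ∧ nm b q k = nm b q g := by
  induction n with
  | zero =>
    intro f g hf hfg
    have h1 : f = 0 := by
      funext x
      by_contra hx
      have h2 := (mass_pos hx).trans hf
      rw [Nat.cast_zero] at h2
      exact absurd h2 (by simp)
    refine ⟨0, by rw [h1], ?_⟩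
    rw [h1, nm_zero, nm_zero] at hfg
    rw [nm_zero]
    funext x
    have h2 := congrFun hfg x
    have h3 := le_nm a hp (nm b q g) x
    rw [← h2] at h3
    exact (Nat.le_zero.1 h3).symm
  | succ n ih =>
    intro f g hf hfg
    by_cases h0 : f = 0
    · exact (by
        subst h0
        refine ⟨0, rfl, ?_⟩
        rw [nm_zero, nm_zero] at hfg
        rw [nm_zero]
        funext x
        have h2 := congrFun hfg x
        have h3 := le_nm a hp (nm b q g) x
        rw [← h2] at h3
        exact (Nat.le_zero.1 h3).symm)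
    · obtain ⟨x, hx⟩ := Function.ne_iff.1 h0
      obtain ⟨f', rfl⟩ := sub_dl hx
      -- a point of the support of `g` in the orbit of `x`
      obtain ⟨i, j, hij⟩ : ∃ i j : ℕ, g ((b ^ j) ((a ^ i) x)) ≠ 0 := by
        by_contra hcon
        push Not at hcon
        have h1 : nm a p (nm b q g) x = 0 :=
          Finset.sum_eq_zero fun i _ => Finset.sum_eq_zero fun j _ => hcon i j
        rw [← hfg] at h1
        have h2 : (f' + dl x) x ≤ nm b q (nm a p (f' + dl x)) x :=
          (le_nm a hp _ x).trans (le_nm b hq _ x)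
        rw [h1, Pi.add_apply, dl_self] at h2
        omega
      set z := (a ^ i) x with hz
      obtain ⟨g', rfl⟩ := sub_dl hij
      have hzx : nm a p (dl z) = nm a p (dl x) := nm_dl ha i x
      have hzy : nm b q (dl ((b ^ j) z)) = nm b q (dl z) := nm_dl hb j z
      have hf' : mass f' ≤ n := by
        rw [mass_add, mass_dl, Nat.cast_add, Nat.cast_one] at hf
        exact (ENNReal.add_le_add_iff_right ENNReal.one_ne_top).1 hf
      have hfg' : nm b q (nm a p f') = nm a p (nm b q g') := by
        rw [nm_add, nm_add, nm_add, nm_add, hzy, ← hzx, nm_comm hab (dl z)] at hfg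
        funext w
        have h1 := congrFun hfg w
        rw [Pi.add_apply, Pi.add_apply] at h1
        omega
      obtain ⟨k, hk1, hk2⟩ := ih f' g' hf' hfg'
      refine ⟨k + dl z, ?_, ?_⟩
      · rw [nm_add, nm_add, hk1, hzx]
      · rw [nm_add, nm_add, hk2, hzy]

variable {s : ι → Equiv.Perm X} {p : ι → ℕ}

/-- uniqueness modulo `s t` -/
theorem Fam.unique (h : Fam s p) {n : ℕ} {t : ι} {J : Finset ι} (ht : t ∉ J) (hJ : n + 1 ≤ J.card)
    {f g : X → ℕ} (hf : mass f ≤ n) (hg : mass g ≤ n)
    (hfg : ∀ i ∈ J, nm (s i) (p i) (nm (s t) (p t) f) = nm (s i) (p i) (nm (s t) (p t) g)) :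
    nm (s t) (p t) f = nm (s t) (p t) g := by
  by_contra hne
  set e : X → ℤ := (fun x => (f x : ℤ)) - fun x => (g x : ℤ) with he
  have h1 : ∀ i, nm (s i) (p i) (nm (s t) (p t) e)
      = (fun x => ((nm (s i) (p i) (nm (s t) (p t) f) x : ℕ) : ℤ))
        - fun x => ((nm (s i) (p i) (nm (s t) (p t) g) x : ℕ) : ℤ) := by
    intro i
    rw [he, nm_sub, nm_cast, nm_cast, nm_sub, nm_cast, nm_cast]
  have h2 := h.lower t J ht e (fun i hi => by rw [h1, hfg i hi, sub_self]) (by
    rw [he, nm_sub, nm_cast, nm_cast]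
    intro h0
    apply hne
    funext x
    have h3 := congrFun h0 x
    rw [Pi.sub_apply, Pi.zero_apply, sub_eq_zero] at h3
    exact_mod_cast h3)
  have h3 : tv e ≤ mass f + mass g := by
    unfold tv mass
    rw [← ENNReal.tsum_add]
    refine ENNReal.tsum_le_tsum fun x => ?_
    have : (e x).natAbs ≤ f x + g x := by
      rw [he, Pi.sub_apply]
      omega
    exact_mod_cast this
  have h4 : (2 : ℝ≥0∞) ^ J.card ≤ n + n := h2.trans (h3.trans (add_le_add hf hg))
  have h5 : (2 : ℕ) ^ J.card ≤ n + n := by exact_mod_cast h4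
  have h6 : 2 ^ (n + 1) ≤ 2 ^ J.card := Nat.pow_le_pow_right (by norm_num) hJ
  have h7 : n < 2 ^ n := Nat.lt_two_pow_self
  rw [pow_succ] at h6
  omega

end Pool.Agent.Q227.AR
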