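import Pool.Agent.Q227.AR.T3

/-!
# Common solutions for many directions
-/

set_option autoImplicit false

namespace Pool.Agent.Q227.AR

open Finset

open scoped ENNReal

variable {X ι : Type} {s : ι → Equiv.Perm X} {p : ι → ℕ}

/-- the orbit of a point -/
def ob (s : ι → Equiv.Perm X) (J : Finset ι) (x : X) : Set X := {z | ∃ a ∈ gp s J, z = a x}

theorem mem_ob (J : Finset ι) (x : X) : x ∈ ob s J x := ⟨1, (gp s J).one_mem, rfl⟩

theorem Fam.ob_stable (h : Fam s p) {J : Finset ι} {i : ι} (hi : i ∈ J) (x z : X) :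
    s i z ∈ ob s J x ↔ z ∈ ob s J x := h.orb_stable hi x z

theorem ob_eq {J : Finset ι} {x : X} {a : Equiv.Perm X} (ha : a ∈ gp s J) :
    ob s J (a x) = ob s J x := by
  ext z
  constructor
  · rintro ⟨b, hb, rfl⟩
    exact ⟨b * a, (gp s J).mul_mem hb ha, rfl⟩
  · rintro ⟨b, hb, rfl⟩
    refine ⟨b * a⁻¹, (gp s J).mul_mem hb ((gp s J).inv_mem ha), ?_⟩
    rw [Equiv.Perm.mul_apply, ← Equiv.Perm.mul_apply a⁻¹, inv_mul_cancel, Equiv.Perm.one_apply]

theorem mass_split (S : Set X) (f : X → ℕ) :
    mass (S.indicator f) + mass (Sᶜ.indicator f) = mass f := by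
  classical
  rw [← mass_add]
  congr 1
  exact Set.indicator_self_add_compl S f

/-- sums over the orbits of `s t` determine a function supported in an orbit of the others -/
theorem Fam.inj_on (h : Fam s p) {J : Finset ι} {t : ι} (ht : t ∉ J) {x₀ : X} {u v : X → ℕ}
    (hu : ∀ x, x ∉ ob s J x₀ → u x = 0) (hv : ∀ x, x ∉ ob s J x₀ → v x = 0)
    (huv : nm (s t) (p t) u = nm (s t) (p t) v) : u = v := by
  classical
  funext x
  by_cases hx : x ∈ ob s J x₀
  · have key : ∀ w : X → ℕ, (∀ x, x ∉ ob s J x₀ → w x = 0) → nm (s t) (p t) w x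
        = ((range (p t)).filter fun k => (s t ^ k) x = x).card * w x := by
      intro w hw
      have h1 : nm (s t) (p t) w x = ∑ k ∈ range (p t), if (s t ^ k) x = x then w x else 0 := by
        refine Finset.sum_congr rfl fun k _ => ?_
        split_ifs with h2
        · rw [h2]
        · apply hw
          rintro ⟨a, ha, hax⟩
          apply h2
          obtain ⟨b, hb, rfl⟩ := hx
          apply h.fix ht (a := a * b⁻¹) ((gp s J).mul_mem ha ((gp s J).inv_mem hb))
          rw [hax, Equiv.Perm.mul_apply, ← Equiv.Perm.mul_apply b⁻¹, inv_mul_cancel,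
            Equiv.Perm.one_apply]
      rw [h1, Finset.sum_ite, Finset.sum_const_zero, add_zero, Finset.sum_const, smul_eq_mul]
    have h1 := congrFun huv x
    rw [key u hu, key v hv] at h1
    refine Nat.eq_of_mul_eq_mul_left ?_ h1
    rw [Finset.card_pos]
    refine ⟨0, ?_⟩
    rw [Finset.mem_filter, mem_range]
    exact ⟨h.pos t, rfl⟩
  · rw [hu x hx, hv x hx]

/-- `n + 2` directions, functions of mass at most `n`: a common solution exists as soon as the
equations are compatible in pairs -/
theorem Fam.exists_common (h : Fam s p) (n : ℕ) : ∀ I : Finset ι, n + 2 ≤ I.card →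
    ∀ f : ι → X → ℕ, (∀ i ∈ I, mass (f i) ≤ n) →
    (∀ i ∈ I, ∀ j ∈ I, nm (s j) (p j) (nm (s i) (p i) (f i))
      = nm (s i) (p i) (nm (s j) (p j) (f j))) →
    ∃ g : X → ℕ, ∀ i ∈ I, nm (s i) (p i) g = nm (s i) (p i) (f i) := by
  classical
  induction n with
  | zero =>
    intro I _ f hf _
    refine ⟨0, fun i hi => ?_⟩
    have h1 : f i = 0 := by
      funext x
      by_contra hx
      have h2 := (mass_pos hx).trans (hf i hi)
      rw [Nat.cast_zero] at h2
      exact absurd h2 (by simp)
    rw [h1]
  | succ n ih =>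
    intro I hI f hf hc
    obtain ⟨t, htI⟩ : I.Nonempty := Finset.card_pos.1 (by omega)
    set J := I.erase t with hJ
    have hJc : n + 2 ≤ J.card := by
      rw [hJ, Finset.card_erase_of_mem htI]
      omega
    have htJ : t ∉ J := Finset.notMem_erase t I
    have hJI : ∀ i ∈ J, i ∈ I := fun i hi => Finset.mem_of_mem_erase hi
    have hpp : ∀ i, (p i : ℝ≥0∞) ≠ 0 := fun i => by
      have := (h.pos i).ne'
      exact_mod_cast this
    by_cases hB : ∀ x, ∀ i ∈ J, mass ((ob s J x).indicator (f i)) ≤ n
    · -- all slices are small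
      have h1 : ∀ S : Set X, ∃ g : X → ℕ, (∃ x, S = ob s J x) →
          ∀ i ∈ J, nm (s i) (p i) g = S.indicator (nm (s i) (p i) (f i)) := by
        intro S
        by_cases hS : ∃ x, S = ob s J x
        · obtain ⟨x, rfl⟩ := hS
          obtain ⟨g, hg⟩ := ih J hJc (fun i => (ob s J x).indicator (f i)) (hB x) (by
            intro i hi j hj
            rw [nm_indicator (h.ob_stable hi x), nm_indicator (h.ob_stable hj x),
              nm_indicator (h.ob_stable hj x), nm_indicator (h.ob_stable hi x),
              hc i (hJI i hi) j (hJI j hj)])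
          exact ⟨g, fun _ i hi => by rw [hg i hi, nm_indicator (h.ob_stable hi x)]⟩
        · exact ⟨0, fun h' => absurd h' hS⟩
      choose G hG using h1
      refine ⟨fun x => G (ob s J x) x, ?_⟩
      set g : X → ℕ := fun x => G (ob s J x) x with hg
      have h2 : ∀ i ∈ J, nm (s i) (p i) g = nm (s i) (p i) (f i) := by
        intro i hi
        funext x
        have h3 : nm (s i) (p i) g x = nm (s i) (p i) (G (ob s J x)) x := by
          refine Finset.sum_congr rfl fun k _ => ?_
          rw [hg]
          change G (ob s J ((s i ^ k) x)) ((s i ^ k) x) = _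
          rw [ob_eq ((gp s J).pow_mem (mem_gp hi) k)]
        rw [h3, hG _ ⟨x, rfl⟩ i hi, Set.indicator_of_mem (mem_ob J x)]
      intro i hi
      by_cases hit : i = t
      · subst hit
        obtain ⟨j, hj⟩ : J.Nonempty := Finset.card_pos.1 (by omega)
        have hmg : mass g ≤ ((n + 1 : ℕ) : ℝ≥0∞) := by
          have h3 : (p j : ℝ≥0∞) * mass g = p j * mass (f j) := by
            rw [← mass_nm (s j), ← mass_nm (s j), h2 j hj]
          rw [(ENNReal.mul_right_inj (hpp j) (ENNReal.natCast_ne_top _)).1 h3]
          exact hf j (hJI j hj)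
        refine h.unique htJ hJc hmg (hf i hi) fun j hj => ?_
        rw [nm_comm (h.comm j i), h2 j hj]
        exact hc j (hJI j hj) i hi
      · exact h2 i (Finset.mem_erase.2 ⟨hit, hi⟩)
    · -- a slice contains everything
      push Not at hB
      obtain ⟨x₀, i₀, hi₀, hx₀⟩ := hB
      have hst : ∀ i ∈ J, ∀ z, s i z ∈ ob s J x₀ ↔ z ∈ ob s J x₀ := fun i hi z =>
        h.ob_stable hi x₀ z
      have hsupp : ∀ i ∈ J, ∀ x, x ∉ ob s J x₀ → f i x = 0 := by
        intro i hi x hx
        by_contra hne
        have h1 : mass ((ob s J x₀).indicator (f i)) = mass ((ob s J x₀).indicator (f i₀)) := by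
          have h2 : (p i₀ : ℝ≥0∞) * (p i * mass ((ob s J x₀).indicator (f i)))
              = p i₀ * (p i * mass ((ob s J x₀).indicator (f i₀))) := by
            have e1 : (p i₀ : ℝ≥0∞) * (p i * mass ((ob s J x₀).indicator (f i)))
                = mass (nm (s i₀) (p i₀) (nm (s i) (p i) ((ob s J x₀).indicator (f i)))) := by
              rw [mass_nm, mass_nm]
            have e2 : (p i : ℝ≥0∞) * (p i₀ * mass ((ob s J x₀).indicator (f i₀)))
                = mass (nm (s i) (p i) (nm (s i₀) (p i₀) ((ob s J x₀).indicator (f i₀)))) := by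
              rw [mass_nm, mass_nm]
            rw [mul_left_comm (p i₀ : ℝ≥0∞) (p i : ℝ≥0∞) (mass ((ob s J x₀).indicator (f i₀))),
              e1, e2, nm_indicator (hst i hi), nm_indicator (hst i₀ hi₀),
              nm_indicator (hst i₀ hi₀), nm_indicator (hst i hi),
              hc i (hJI i hi) i₀ (hJI i₀ hi₀)]
          exact (ENNReal.mul_right_inj (hpp i) (ENNReal.natCast_ne_top _)).1
            ((ENNReal.mul_right_inj (hpp i₀) (ENNReal.natCast_ne_top _)).1 h2)
        have h2 : mass ((ob s J x₀).indicator (f i)) ≤ n := by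
          have h3 := mass_split (ob s J x₀) (f i)
          have h4 : 1 ≤ mass ((ob s J x₀)ᶜ.indicator (f i)) := by
            apply mass_pos (x := x)
            rw [Set.indicator_of_mem (Set.mem_compl hx)]
            exact hne
          have h5 : mass ((ob s J x₀).indicator (f i)) + 1 ≤ n + 1 := by
            calc _ ≤ mass ((ob s J x₀).indicator (f i)) + mass ((ob s J x₀)ᶜ.indicator (f i)) :=
                  add_le_add le_rfl h4
              _ = mass (f i) := h3
              _ ≤ ((n + 1 : ℕ) : ℝ≥0∞) := hf i (hJI i hi)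
              _ = n + 1 := by rw [Nat.cast_add, Nat.cast_one]
          exact (ENNReal.add_le_add_iff_right ENNReal.one_ne_top).1 h5
        rw [h1] at h2
        exact absurd h2 (not_le.2 hx₀)
      have hfin : ∀ i ∈ J, (ob s J x₀).indicator (f i) = f i := by
        intro i hi
        refine Set.indicator_eq_self.2 fun x hx => ?_
        by_contra hx'
        exact hx (hsupp i hi x hx')
      obtain ⟨g, hg1, hg2⟩ := pair (h.comm t i₀) (h.pow t) (h.pow i₀) (h.pos t) (h.pos i₀)
        (n + 1) (f t) (f i₀) (hf t htI) (hc t htI i₀ (hJI i₀ hi₀))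
      have hgS : ∀ x, x ∉ ob s J x₀ → g x = 0 := by
        intro x hx
        have h1 := le_nm (s i₀) (h.pos i₀) g x
        rw [hg2, ← hfin i₀ hi₀, nm_indicator (hst i₀ hi₀), Set.indicator_of_notMem hx] at h1
        exact Nat.le_zero.1 h1
      have hgS' : (ob s J x₀).indicator g = g := by
        refine Set.indicator_eq_self.2 fun x hx => ?_
        by_contra hx'
        exact hx (hgS x hx')
      refine ⟨g, fun i hi => ?_⟩
      by_cases hit : i = t
      · rw [hit, hg1]
      · have hiJ : i ∈ J := Finset.mem_erase.2 ⟨hit, hi⟩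
        refine h.inj_on (x₀ := x₀) htJ ?_ ?_ ?_
        · intro x hx
          rw [← hgS', nm_indicator (hst i hiJ), Set.indicator_of_notMem hx]
        · intro x hx
          rw [← hfin i hiJ, nm_indicator (hst i hiJ), Set.indicator_of_notMem hx]
        · rw [nm_comm (h.comm t i), hg1, hc i hi t htI]

end Pool.Agent.Q227.AR
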